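import Pool.Agent.Helper68.SG2.GoalsT
import Pool.Agent.Helper65.SG.Tay

/-!
# Project SG, stage 2 (MP_a41896_nt): TAYZT, and the Taylor expansion of a point of `G_m`
-/

set_option autoImplicit false

open MvPolynomial

namespace Pool.Agent.Helper65.SG2

open WeierstrassCurve Height
open Pool.Agent.Helper29.BL Pool.Agent.Helper92.Ru Pool.Agent.Helper42.SG
open Pool.Agent.Helper65.SG
open Pool.Agent.Helper68.SG2

section series

variable {K : Type} [Field K]

/-- Inverse series: if `G` has no constant term there is `y` with `(1 + G) y = 1`, of norm `≤ 2` if `G` has norm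
`≤ 1/5`, and of norm `≤ 1` if `G` has norm `≤ 1` and `v` is nonarchimedean. -/
theorem inv_series {σ : Type} (G : MvPowerSeries σ K) (hG : MvPowerSeries.constantCoeff G = 0) :
    ∃ y : MvPowerSeries σ K, (1 + G) * y = 1 ∧
      ∀ (v : AbsoluteValue K ℝ) (r : σ → ℝ), (∀ i, 0 < r i) →
        (NPS v r G (1 / 5) → NPS v r y 2) ∧
        (IsNonarchimedean v → NPS v r G 1 → NPS v r y 1) := by
  have hg : MvPowerSeries.constantCoeff (G * (1 + G)) = 0 := by rw [map_mul, hG, zero_mul]
  refine ⟨Ylim (G * (1 + G)), ?_, fun v r hr => ⟨fun h => nps_lim hg (nps_YY hr ?_),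
    fun hv h => nps_lim hg (nps_YY' hv hr ?_)⟩⟩
  · have h := Ylim_eq hg
    generalize Ylim (G * (1 + G)) = y at h
    have h1 : ((1 + G) * y - 1) * (G * ((1 + G) * y) + G + 1) = 0 := by
      linear_combination (1 + G) * h
    rcases mul_eq_zero.mp h1 with h2 | h2
    · exact sub_eq_zero.mp h2
    · exfalso
      have h3 := congrArg MvPowerSeries.constantCoeff h2
      simp [hG] at h3
  · have hN := nfr_nps (K := K) v hr
    have h1 := hN.mul _ _ _ _ h (hN.add _ _ _ _ (frame_one hN) h)
    exact hN.mono _ _ _ h1 (by norm_num)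
  · have hN := nfr_nps (K := K) v hr
    have h1 := hN.mul _ _ _ _ h (hN.max hv _ _ _ _ (frame_one hN) h)
    exact hN.mono _ _ _ h1 (by norm_num)

/-- The Taylor expansion of a point of `G_m`. -/
theorem gm_point {σ : Type} (i : σ) (ξ ψ : K) (h : ξ * ψ = 1) :
    ∃ P : MvPowerSeries σ K,
      (MvPowerSeries.C ξ + MvPowerSeries.C (ξ - 1) * MvPowerSeries.X i) * P = 1 ∧
      MvPowerSeries.constantCoeff P = ψ ∧
      ∀ (v : AbsoluteValue K ℝ) (r : σ → ℝ), (∀ i, 0 < r i) →
        r i ≤ 1 / (c2 v ^ 10 * Mv v ψ ^ 2) →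
        NPS v r (MvPowerSeries.C ξ + MvPowerSeries.C (ξ - 1) * MvPowerSeries.X i)
          (c2 v * v ξ) ∧
        NPS v r P (c2 v * v ψ) ∧
        NPS v r (MvPowerSeries.C ξ + MvPowerSeries.C (ξ - 1) * MvPowerSeries.X i - 1)
          (c2 v * v (ξ - 1)) := by
  obtain ⟨y, hy, hyn⟩ := inv_series (MvPowerSeries.C (1 - ψ) * (MvPowerSeries.X i :
    MvPowerSeries σ K)) (by rw [map_mul, MvPowerSeries.constantCoeff_X, mul_zero])
  have hC1 : (MvPowerSeries.C ξ : MvPowerSeries σ K) * MvPowerSeries.C ψ = 1 := by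
    rw [← map_mul, h, map_one]
  refine ⟨MvPowerSeries.C ψ * y, ?_, ?_, ?_⟩
  · simp only [map_sub, map_one] at hy ⊢
    linear_combination hy + (1 + MvPowerSeries.X i) * y * hC1
  · have h1 := congrArg MvPowerSeries.constantCoeff hy
    rw [map_mul, map_add, map_mul, MvPowerSeries.constantCoeff_X, mul_zero, add_zero, map_one,
      one_mul] at h1
    rw [map_mul, h1, mul_one, MvPowerSeries.constantCoeff_C]
  · intro v r hr hri
    have hN := nfr_nps (K := K) v hr
    have hc := one_le_c2 v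
    have hM := one_le_Mv v ψ
    have hM0 := Mv_pos v ψ
    have hC : ∀ (x : K) (T : ℝ), v x ≤ T → NPS v r (MvPowerSeries.C x) T := by
      intro x T hx
      have := hN.const x
      rw [MvPowerSeries.algebraMap_apply, Algebra.algebraMap_self_apply] at this
      exact hN.mono _ _ _ this hx
    have hX : NPS v r (MvPowerSeries.X i : MvPowerSeries σ K) (r i) := nps_X hr i
    have hv1 : v (1 - ψ) ≤ c2 v * Mv v ψ := by
      have h1 := frame_add (t_FRPT K v) (f := (1 : K)) (g := -ψ) (S := Mv v ψ)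
        (by simpa using hM) (by rw [v.map_neg]; exact le_max_right _ _)
      rwa [← sub_eq_add_neg] at h1
    have hr1 : v (1 - ψ) * r i ≤ 1 / c2 v ^ 9 := by
      calc v (1 - ψ) * r i ≤ (c2 v * Mv v ψ) * (1 / (c2 v ^ 10 * Mv v ψ ^ 2)) :=
            mul_le_mul hv1 hri (hr i).le (by positivity)
        _ = 1 / c2 v ^ 9 * (1 / Mv v ψ) := by field_simp
        _ ≤ 1 / c2 v ^ 9 * 1 := by
            refine mul_le_mul_of_nonneg_left ?_ (by positivity)
            rw [div_le_one hM0]; exact hM
        _ = _ := mul_one _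
    have hr2 : v (1 - ψ) * r i ≤ 1 := by
      refine hr1.trans ?_
      rw [div_le_one (by positivity)]
      exact one_le_pow₀ hc
    have hr3 : r i ≤ 1 := by
      refine hri.trans ?_
      rw [div_le_one (by positivity)]
      exact one_le_mul_of_one_le_of_one_le (one_le_pow₀ hc) (one_le_pow₀ hM)
    have n5 : NPS v r y (c2 v) := by
      by_cases hv : IsNonarchimedean v
      · have hc1 : c2 v = 1 := cst_of_nonarch hv 2
        rw [hc1]
        exact (hyn v r hr).2 hv (hN.mono _ _ _ (hN.mul _ _ _ _ (hC _ _ le_rfl) hX) hr2)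
      · have hc1 : c2 v = 2 := cst_of_not_nonarch hv 2
        rw [hc1] at hr1 ⊢
        exact (hyn v r hr).1 (hN.mono _ _ _ (hN.mul _ _ _ _ (hC _ _ le_rfl) hX)
          (hr1.trans (by norm_num)))
    refine ⟨?_, ?_, ?_⟩
    · refine frame_add hN (hC _ _ le_rfl) (hN.mono _ _ _ (hN.mul _ _ _ _ (hC _ _ le_rfl) hX) ?_)
      have h1 : v (ξ - 1) = v ξ * v (1 - ψ) := by
        rw [← map_mul]
        congr 1
        linear_combination h
      rw [h1, mul_assoc]
      exact mul_le_of_le_one_right (v.nonneg _) hr2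
    · have := hN.mul _ _ _ _ (hC ψ _ le_rfl) n5
      rwa [mul_comm (v ψ)] at this
    · have h1 : (MvPowerSeries.C ξ + MvPowerSeries.C (ξ - 1) * MvPowerSeries.X i - 1 :
          MvPowerSeries σ K) = (1 + MvPowerSeries.X i) * MvPowerSeries.C (ξ - 1) := by
        simp only [map_sub, map_one]
        ring
      rw [h1]
      have h2 := frame_add hN (frame_one hN) (hN.mono _ _ _ hX hr3)
      have h3 := hN.mul _ _ _ _ h2 (hC (ξ - 1) _ le_rfl)
      rwa [mul_one] at h3

end series

theorem t_TAYZT : TAYZT := by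
  classical
  intro K _ _ T W
  refine ⟨BT W, PlC_BT W, fun ξ ψ hpt => ?_⟩
  have hBc : ∀ v : AbsoluteValue K ℝ, c2 v ≤ BT W v := by
    intro v
    have h1 := one_le_c2 v
    have h2 := one_le_b01 W v
    calc c2 v ≤ c2 v ^ 10 := le_self_pow₀ h1 (by norm_num)
      _ ≤ c2 v ^ 10 * b01 W v := le_mul_of_one_le_right (by positivity) h2
  have hex : ∀ h : Fin 2, ∃ P : MvPowerSeries (Fin 2) K,
      ((T (h.val % 2) = true →
        (MvPowerSeries.C (ξ h.val) +
          MvPowerSeries.C (kapT T ξ ψ h.val) * MvPowerSeries.X h) * P = 1) ∧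
      (T (h.val % 2) = false →
        P ^ 2 = Bf ((W (h.val % 2)).map (algebraMap K (MvPowerSeries (Fin 2) K)))
          (MvPowerSeries.C (ξ h.val) +
            MvPowerSeries.C (kapT T ξ ψ h.val) * MvPowerSeries.X h))) ∧
      MvPowerSeries.constantCoeff P = ψ h.val ∧
      ∀ (v : AbsoluteValue K ℝ) (r : Fin 2 → ℝ), (∀ i, 0 < r i) →
        r h = 1 / (BT W v * Mv v (rhoT T ξ h.val) ^ 2) →
        (T (h.val % 2) = true →
          NPS v r (MvPowerSeries.C (ξ h.val) +
            MvPowerSeries.C (kapT T ξ ψ h.val) * MvPowerSeries.X h) (BT W v * v (ξ h.val)) ∧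
          NPS v r P (BT W v * v (ψ h.val)) ∧
          NPS v r (MvPowerSeries.C (ξ h.val) +
            MvPowerSeries.C (kapT T ξ ψ h.val) * MvPowerSeries.X h - 1)
              (BT W v * v (ξ h.val - 1))) ∧
        (T (h.val % 2) = false →
          NPS v r (MvPowerSeries.C (ξ h.val) +
            MvPowerSeries.C (kapT T ξ ψ h.val) * MvPowerSeries.X h) (BT W v * Mv v (ξ h.val)) ∧
          NPS v r P (BT W v * Mv v (ξ h.val) ^ 2)) := by
    intro h
    have hp := hpt h.val (by omega)
    by_cases hT : T (h.val % 2) = true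
    · obtain ⟨h1, h2, h3⟩ := hp.1 hT
      have h4 : ξ h.val * ψ h.val = 1 := by rw [h3, mul_inv_cancel₀ h1]
      obtain ⟨P, hP1, hP2, hP3⟩ := gm_point h (ξ h.val) (ψ h.val) h4
      have hk : kapT T ξ ψ h.val = ξ h.val - 1 := by simp [kapT, hT]
      have hrh : rhoT T ξ h.val = ψ h.val := by simp [rhoT, hT, h3]
      rw [hk, hrh]
      refine ⟨P, ⟨fun _ => hP1, fun h' => absurd h' (by simp [hT])⟩, hP2, fun v r hr hri =>
        ⟨fun _ => ?_, fun h' => absurd h' (by simp [hT])⟩⟩
      have hM := Mv_pos v (ψ h.val)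
      have hc := one_le_c2 v
      have := hP3 v r hr (by
        rw [hri]
        refine one_div_le_one_div_of_le (by positivity) ?_
        refine mul_le_mul_of_nonneg_right ?_ (by positivity)
        rw [BT]
        exact le_mul_of_one_le_right (by positivity) (one_le_b01 W v))
      have hN := nfr_nps (K := K) v hr
      exact ⟨hN.mono _ _ _ this.1 (mul_le_mul_of_nonneg_right (hBc v) (v.nonneg _)),
        hN.mono _ _ _ this.2.1 (mul_le_mul_of_nonneg_right (hBc v) (v.nonneg _)),
        hN.mono _ _ _ this.2.2 (mul_le_mul_of_nonneg_right (hBc v) (v.nonneg _))⟩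
    · have hT' : T (h.val % 2) = false := by simpa using hT
      obtain ⟨h1, h2⟩ := hp.2 hT'
      obtain ⟨P, hP1, hP2, hP3⟩ := tay_point (W (h.val % 2)) h (ξ h.val) (ψ h.val) h1
      have hk : kapT T ξ ψ h.val = 4 * ψ h.val ^ 2 := by simp [kapT, hT]
      have hrh : rhoT T ξ h.val = ξ h.val := by simp [rhoT, hT]
      rw [hk, hrh]
      refine ⟨P, ⟨fun h' => absurd h' hT, fun _ => hP1⟩, hP2, fun v r hr hri =>
        ⟨fun h' => absurd h' hT, fun _ => ?_⟩⟩
      have := hP3 v r (b01 W v) hr (bet_le_b01 W v h) hri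
      have hN := nfr_nps (K := K) v hr
      exact ⟨hN.mono _ _ _ this.1 (mul_le_mul_of_nonneg_right (hBc v) (Mv_pos v _).le), this.2⟩
  choose P hP1 hP2 hP3 using hex
  refine ⟨fun h => if H : h < 2 then MvPowerSeries.C (ξ h) +
    MvPowerSeries.C (kapT T ξ ψ h) * MvPowerSeries.X ⟨h, H⟩ else MvPowerSeries.C (ξ h),
    fun h => if H : h < 2 then P ⟨h, H⟩ else MvPowerSeries.C (ψ h), ⟨?_, ?_, ?_, ?_, ?_⟩, ?_⟩
  · intro h hh
    by_cases H : h < 2
    · simp only [H, dif_pos]
      exact hP1 ⟨h, H⟩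
    · simp only [H, dif_neg, not_false_eq_true]
      refine ⟨fun hT => ?_, fun hT => ?_⟩
      · obtain ⟨h1, h2, h3⟩ := (hpt h hh).1 hT
        rw [← map_mul, h3, mul_inv_cancel₀ h1, map_one]
      · have hE := congrArg (MvPowerSeries.C (σ := Fin 2) (R := K)) ((hpt h hh).2 hT).1
        have ha : ∀ x : K, algebraMap K (MvPowerSeries (Fin 2) K) x = MvPowerSeries.C x :=
          fun x => by
            rw [MvPowerSeries.algebraMap_apply, Algebra.algebraMap_self_apply]
        unfold Bf at hE ⊢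
        simp only [mapW, WeierstrassCurve.map_b₂, WeierstrassCurve.map_b₄, WeierstrassCurve.map_b₆,
          ha, map_add, map_mul, map_pow, map_ofNat] at hE ⊢
        exact hE
  · intro h
    simp only [h.isLt, dif_pos, Fin.eta]
  · intro h
    simp only [h.isLt, dif_pos, Fin.eta]
    exact hP2 h
  · intro i _
    have H : ¬ 2 + i < 2 := by omega
    simp only [H, dif_neg, not_false_eq_true]
  · intro i _
    have H : ¬ 2 + i < 2 := by omega
    simp only [H, dif_neg, not_false_eq_true]
  · intro v h hh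
    have hr : ∀ i : Fin 2, 0 < 1 / (BT W v * Mv v (rhoT T ξ i.val) ^ 2) := by
      intro i
      have h1 := (PlC_BT W).one_le v
      have h2 := Mv_pos v (rhoT T ξ i.val)
      positivity
    have hN := nfr_nps (K := K) v hr
    have hB1 := (PlC_BT W).one_le v
    by_cases H : h < 2
    · simp only [H, dif_pos]
      exact hP3 ⟨h, H⟩ v (fun i => 1 / (BT W v * Mv v (rhoT T ξ i.val) ^ 2)) hr rfl
    · simp only [H, dif_neg, not_false_eq_true]
      have hC : ∀ (x : K) (S : ℝ), v x ≤ S →
          NPS v (fun i : Fin 2 => 1 / (BT W v * Mv v (rhoT T ξ i.val) ^ 2))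
            (MvPowerSeries.C x : MvPowerSeries (Fin 2) K) S := by
        intro x S hx
        have := hN.const x
        rw [MvPowerSeries.algebraMap_apply, Algebra.algebraMap_self_apply] at this
        exact hN.mono _ _ _ this hx
      refine ⟨fun hT => ⟨hC _ _ ?_, hC _ _ ?_, ?_⟩, fun hT => ⟨hC _ _ ?_, hC _ _ ?_⟩⟩
      · exact le_mul_of_one_le_left (v.nonneg _) hB1
      · exact le_mul_of_one_le_left (v.nonneg _) hB1
      · have h1 : (MvPowerSeries.C (ξ h) - 1 : MvPowerSeries (Fin 2) K) =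
            MvPowerSeries.C (ξ h - 1) := by simp only [map_sub, map_one]
        rw [h1]
        exact hC _ _ (le_mul_of_one_le_left (v.nonneg _) hB1)
      · refine (le_max_right 1 (v (ξ h)) : v (ξ h) ≤ Mv v (ξ h)).trans ?_
        exact le_mul_of_one_le_left (Mv_pos v _).le hB1
      · obtain ⟨-, -, -, -, e5⟩ := tay_est (W (h % 2)) v (b01 W v) (bet_le_b01 W v h) (ξ h) (ψ h)
          ((hpt h hh).2 hT).1
        refine e5.trans ?_
        have h1 := one_le_c2 v
        have h3 : c2 v ^ 2 ≤ c2 v ^ 10 := pow_le_pow_right₀ h1 (by norm_num)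
        have h4 := Mv_pos v (ξ h)
        have h5 := one_le_b01 W v
        rw [BT]
        gcongr

end Pool.Agent.Helper65.SG2
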